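import Mathlib
import Pool.Agent.Helper97.CycleDefs
import Pool.Agent.Helper97.CycleProof

set_option autoImplicit false

namespace Pool.Agent.Results.MP_7e070a_pr.NoCutoffSimpleWalk

open Pool.Agent.Helper97.CycleDefs Pool.Agent.Helper97.CycleProof

/-- There is a sequence of simple random walks on unweighted loop-free Cayley graphs of cycles
with relaxation times at most `4`, satisfying the product condition, and without total-variation
cutoff (the mixing times at levels `1/4` and `3/4` stay separated by the factor `4/3`). -/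
theorem result : ∃ W : ℕ → CycleWalk,
    Filter.Tendsto (fun k => (W k).n) Filter.atTop Filter.atTop ∧
    (∀ k, IsSimpleRandomWalk (W k)) ∧
    (∀ k, trel (W k) ≤ 4) ∧
    ProductCondition W ∧
    (∀ k, 0 < mixTime (W k) (3/4) ∧
      (4/3 : ℝ) * (mixTime (W k) (3/4) : ℝ) ≤ (mixTime (W k) (1/4) : ℝ)) ∧
    ¬ HasCutoff W := by
  have hex : ∀ k : ℕ, ∃ W : CycleWalk, k + 30 ≤ W.n ∧ IsSimpleRandomWalk W ∧
      lamStar W ≤ 3/4 ∧ 0 < mixTime W (3/4) ∧ ((k + 30 : ℕ):ℝ) / 2 ≤ (mixTime W (1/4) : ℝ) ∧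
      (4/3 : ℝ) * (mixTime W (3/4) : ℝ) ≤ (mixTime W (1/4) : ℝ) := fun k =>
    exists_walk (k + 30) (by omega)
  choose W h1 h2 h3 h4 h5 h6 using hex
  have htrel : ∀ k, trel (W k) ≤ 4 := by
    intro k
    unfold trel
    rw [div_le_iff₀ (by linarith [h3 k])]
    linarith [h3 k]
  have htrel0 : ∀ k, 0 < trel (W k) := by
    intro k
    unfold trel
    exact div_pos one_pos (by linarith [h3 k])
  refine ⟨W, ?_, h2, htrel, ?_, fun k => ⟨h4 k, h6 k⟩, ?_⟩
  · refine Filter.tendsto_atTop_mono (f := fun k => k) (fun k => ?_) Filter.tendsto_id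
    have := h1 k
    omega
  · unfold ProductCondition
    have hlow : ∀ k : ℕ, (k:ℝ) / 8 ≤ (mixTime (W k) (1/4) : ℝ) / trel (W k) := by
      intro k
      rw [le_div_iff₀ (htrel0 k)]
      have h7 := h5 k
      push_cast at h7
      have h8 : (k:ℝ) / 8 * trel (W k) ≤ (k:ℝ) / 8 * 4 :=
        mul_le_mul_of_nonneg_left (htrel k) (by positivity)
      linarith
    refine Filter.tendsto_atTop_mono hlow ?_
    exact Filter.Tendsto.atTop_div_const (by norm_num) tendsto_natCast_atTop_atTop
  · intro hcut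
    have h := hcut (1/4) (by norm_num) (by norm_num)
    have h9 : (1:ℝ) - 1/4 = 3/4 := by norm_num
    rw [h9] at h
    have h10 : ∀ k, (4/3:ℝ) ≤ (mixTime (W k) (1/4) : ℝ) / (mixTime (W k) (3/4) : ℝ) := by
      intro k
      have : (0:ℝ) < (mixTime (W k) (3/4) : ℝ) := by exact_mod_cast h4 k
      rw [le_div_iff₀ this]
      exact h6 k
    have h11 := ge_of_tendsto' h h10
    norm_num at h11

end Pool.Agent.Results.MP_7e070a_pr.NoCutoffSimpleWalk
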